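import Pool.Agent.Helper53.GO.Phase

/-!
# Equidistribution of the phases: the theorem
-/

set_option autoImplicit false

open Filter Topology Asymptotics
open Pool.Agent.H723R2.LSW (T T_even T_odd)

namespace Pool.Agent.Helper53.GO

lemma const_small (C : ℝ) : (fun _ : ℕ => C) =o[atTop] fun N : ℕ => (N : ℝ) := by
  rw [isLittleO_const_left]
  right
  have h : (norm ∘ fun N : ℕ => (N : ℝ)) = fun N : ℕ => (N : ℝ) := by
    funext N
    simp
  rw [h]
  exact tendsto_natCast_atTop_atTop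

/-- Composition of a small function with a multiplication. -/
lemma comp_small {f : ℕ → ℝ} (h : f =o[atTop] fun N : ℕ => (N : ℝ)) {c : ℕ} (hc : 0 < c) :
    (fun N : ℕ => f (c * N)) =o[atTop] fun N : ℕ => (N : ℝ) := by
  have h1 : Tendsto (fun N : ℕ => c * N) atTop atTop :=
    tendsto_id.const_mul_atTop' hc
  have h2 := h.comp_tendsto h1
  have h3 : ((fun N : ℕ => (N : ℝ)) ∘ fun N : ℕ => c * N) = fun N : ℕ => (c : ℝ) * (N : ℝ) := by
    funext N
    simp
  rw [h3] at h2
  exact h2.trans_isBigO (isBigO_const_mul_self _ _ _)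

variable {s : ℤ} {m : ℕ} {P : ℕ → ℤ → Prop}

lemma bad_small (hs : s = 1 ∨ s = -1) : bad s =o[atTop] fun N : ℕ => (N : ℝ) :=
  near_density hs

lemma IsPhase.two_small (hs : s = 1 ∨ s = -1) (hP : IsPhase s m P) (j : ℕ) :
    (fun N : ℕ => num s (P (j + 1)) (2 * N) - 2 * num s (P j) N) =o[atTop] fun N : ℕ => (N : ℝ) := by
  obtain ⟨C, hC⟩ := hP.two
  have h1 : (fun N : ℕ => C + 2 * bad s (2 * N)) =o[atTop] fun N : ℕ => (N : ℝ) :=
    (const_small C).add ((comp_small (bad_small hs) (by norm_num : 0 < 2)).const_mul_left 2)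
  refine (IsBigO.of_bound 1 (Eventually.of_forall fun N => ?_)).trans_isLittleO h1
  rw [one_mul, Real.norm_eq_abs, Real.norm_eq_abs]
  exact (hC N j).trans (le_abs_self _)

lemma IsPhase.three_small (hs : s = 1 ∨ s = -1) (hP : IsPhase s m P) (j : ℕ) :
    (fun N : ℕ => num s (P j) (3 * N) - 3 * num s (P j) N) =o[atTop] fun N : ℕ => (N : ℝ) := by
  obtain ⟨C, hC⟩ := hP.three
  have h1 : (fun N : ℕ => C + 3 * bad s N) =o[atTop] fun N : ℕ => (N : ℝ) :=
    (const_small C).add ((bad_small hs).const_mul_left 3)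
  refine (IsBigO.of_bound 1 (Eventually.of_forall fun N => ?_)).trans_isLittleO h1
  rw [one_mul, Real.norm_eq_abs, Real.norm_eq_abs]
  exact (hC N j).trans (le_abs_self _)

lemma IsPhase.pow_two_small (hs : s = 1 ∨ s = -1) (hP : IsPhase s m P) (j a : ℕ) :
    (fun N : ℕ => num s (P (j + a)) (2 ^ a * N) - 2 ^ a * num s (P j) N) =o[atTop]
      fun N : ℕ => (N : ℝ) := by
  induction a with
  | zero => simp
  | succ a ih =>
    have h1 := comp_small (hP.two_small hs (j + a)) (by positivity : 0 < 2 ^ a)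
    have h2 := h1.add (ih.const_mul_left 2)
    refine h2.congr_left fun N => ?_
    rw [show 2 * (2 ^ a * N) = 2 ^ (a + 1) * N by ring, show j + a + 1 = j + (a + 1) by ring]
    ring

lemma IsPhase.pow_three_small (hs : s = 1 ∨ s = -1) (hP : IsPhase s m P) (j b : ℕ) :
    (fun N : ℕ => num s (P j) (3 ^ b * N) - 3 ^ b * num s (P j) N) =o[atTop]
      fun N : ℕ => (N : ℝ) := by
  induction b with
  | zero => simp
  | succ b ih =>
    have h1 := comp_small (hP.three_small hs j) (by positivity : 0 < 3 ^ b)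
    have h2 := h1.add (ih.const_mul_left 3)
    refine h2.congr_left fun N => ?_
    rw [show 3 * (3 ^ b * N) = 3 ^ (b + 1) * N by ring]
    ring

lemma IsPhase.per_mul (hP : IsPhase s m P) (j l : ℕ) (x : ℤ) : P (j + m * l) x ↔ P j x := by
  induction l with
  | zero => simp
  | succ l ih => rw [show j + m * (l + 1) = j + m * l + m by ring, hP.per, ih]

/-- **The phases are equidistributed.** -/
theorem IsPhase.equi (hs : s = 1 ∨ s = -1) (hm : 0 < m) (hP : IsPhase s m P) (j : ℕ) :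
    (fun N : ℕ => num s (P (j + 1)) N - num s (P j) N) =o[atTop] fun N : ℕ => (N : ℝ) := by
  rw [isLittleO_iff]
  intro c hc
  obtain ⟨a, b, l, ha, hab⟩ := exists_close hm (show 0 < c / 4 by positivity)
  have hper : num s (P (j + a)) = num s (P (j + 1)) := by
    funext N
    unfold num
    refine Finset.sum_congr rfl fun n _ => ind_congr ?_
    rw [ha, show j + (1 + m * l) = j + 1 + m * l by ring]
    exact hP.per_mul _ _ _
  have h1 := (isLittleO_iff.1 (hP.pow_two_small hs j a)) (show 0 < c / 4 by positivity)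
  have h2 := (isLittleO_iff.1 (hP.pow_three_small hs (j + a) b)) (show 0 < c / 4 by positivity)
  filter_upwards [h1, h2] with N h1 h2
  rw [hper] at h1 h2
  rw [Real.norm_eq_abs, Real.norm_of_nonneg (by positivity : (0 : ℝ) ≤ N)] at h1 h2 ⊢
  have h3 := num_dist s (P (j + 1)) (3 ^ b * N) (2 ^ a * N)
  have h4 := num_nonneg s (P (j + 1)) N
  have h5 := num_le s (P (j + 1)) N
  have h2a : (1 : ℝ) ≤ 2 ^ a := one_le_pow₀ (by norm_num)
  have h6 : |(3 : ℝ) ^ b - 2 ^ a| ≤ c / 4 * 2 ^ a := by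
    have h7 : (3 : ℝ) ^ b - 2 ^ a = ((3 : ℝ) ^ b / 2 ^ a - 1) * 2 ^ a := by
      field_simp
    rw [h7, abs_mul, abs_of_pos (by positivity : (0 : ℝ) < 2 ^ a)]
    gcongr
  have h8 : |((2 ^ a * N : ℕ) : ℝ) - ((3 ^ b * N : ℕ) : ℝ)| ≤ c / 4 * 2 ^ a * N := by
    push_cast
    rw [show (2 : ℝ) ^ a * N - 3 ^ b * N = -((3 ^ b - 2 ^ a) * N) by ring, abs_neg, abs_mul,
      abs_of_nonneg (by positivity : (0 : ℝ) ≤ N)]
    gcongr
  have h9 : |((3 : ℝ) ^ b - 2 ^ a) * num s (P (j + 1)) N| ≤ c / 4 * 2 ^ a * N := by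
    rw [abs_mul, abs_of_nonneg h4]
    gcongr
  have h10 : (2 : ℝ) ^ a * (num s (P (j + 1)) N - num s (P j) N) =
      (num s (P (j + 1)) (2 ^ a * N) - 2 ^ a * num s (P j) N) -
      (num s (P (j + 1)) (2 ^ a * N) - num s (P (j + 1)) (3 ^ b * N)) -
      (num s (P (j + 1)) (3 ^ b * N) - 3 ^ b * num s (P (j + 1)) N) -
      ((3 : ℝ) ^ b - 2 ^ a) * num s (P (j + 1)) N := by
    ring
  have h11 : |(2 : ℝ) ^ a * (num s (P (j + 1)) N - num s (P j) N)| ≤ 2 ^ a * (c * N) := by
    rw [h10]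
    have g1 := abs_le.1 h1
    have g2 := abs_le.1 h2
    have g3 := abs_le.1 (h3.trans h8)
    have g4 := abs_le.1 h9
    have g5 : c / 4 * N ≤ c / 4 * 2 ^ a * N := by
      have : 0 ≤ c / 4 * (N : ℝ) := by positivity
      nlinarith
    rw [abs_le]
    constructor <;> linarith [g1.1, g1.2, g2.1, g2.2, g3.1, g3.2, g4.1, g4.2]
  rw [abs_mul, abs_of_pos (by positivity : (0 : ℝ) < 2 ^ a)] at h11
  exact le_of_mul_le_mul_left h11 (by positivity)

/-- All phases. -/
theorem IsPhase.equi_all (hs : s = 1 ∨ s = -1) (hm : 0 < m) (hP : IsPhase s m P) (j : ℕ) :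
    (fun N : ℕ => num s (P j) N - num s (P 0) N) =o[atTop] fun N : ℕ => (N : ℝ) := by
  induction j with
  | zero => simp
  | succ j ih =>
    refine ((hP.equi hs hm j).add ih).congr_left fun N => ?_
    ring

/-- **Densities of the phases.** If the mean value of the number of the phases of `s n` is `μ`, then each phase
has the density `μ / m`. -/
theorem IsPhase.density (hs : s = 1 ∨ s = -1) (hm : 0 < m) (hP : IsPhase s m P) {μ : ℝ}
    (hμ : Tendsto (fun N : ℕ => (∑ j ∈ Finset.range m, num s (P j) N) / N) atTop (𝓝 μ)) (j : ℕ) :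
    Tendsto (fun N : ℕ => num s (P j) N / N) atTop (𝓝 (μ / m)) := by
  have hm' : (0 : ℝ) < m := by exact_mod_cast hm
  have h1 : ∀ i, Tendsto (fun N : ℕ => (num s (P i) N - num s (P j) N) / N) atTop (𝓝 0) := by
    intro i
    have h2 := (hP.equi_all hs hm i).sub (hP.equi_all hs hm j)
    have h3 := h2.tendsto_div_nhds_zero
    refine h3.congr fun N => ?_
    congr 1
    ring
  have h2 : Tendsto (fun N : ℕ => ∑ i ∈ Finset.range m, (num s (P i) N - num s (P j) N) / N) atTop
      (𝓝 0) := by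
    have := tendsto_finsetSum (Finset.range m) fun i _ => h1 i
    simpa using this
  have h3 := (hμ.sub h2).div_const (m : ℝ)
  rw [sub_zero] at h3
  refine h3.congr fun N => ?_
  rw [← Finset.sum_div, ← sub_div, Finset.sum_sub_distrib, Finset.sum_const, Finset.card_range,
    nsmul_eq_mul]
  field_simp
  ring

end Pool.Agent.Helper53.GO
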