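import Pool.Agent.Helper53.GO.Level

/-!
# The densities of the grand orbits of the iterates
-/

set_option autoImplicit false

open Filter Topology Asymptotics
open Pool.Agent.H723R2.LSW (T T_even T_odd Wild Mer T_Ci T_sign T_iter_sign mer_Ci mer_iff)

namespace Pool.Agent.Helper53.GO

/-- The grand orbit of `x` under `T ^ m`. -/
def G (m : ℕ) (x : ℤ) : Set ℤ := {y | ∃ i j : ℕ, T^[m * i] y = T^[m * j] x}

lemma G_self (m : ℕ) (x : ℤ) : x ∈ G m x := ⟨0, 0, rfl⟩

lemma G_inv (m : ℕ) (x : ℤ) : Inv m (G m x) := by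
  intro y
  constructor
  · rintro ⟨i, j, h⟩
    refine ⟨i, j + 1, ?_⟩
    rw [← Function.iterate_add_apply, Nat.add_comm, Function.iterate_add_apply, h,
      ← Function.iterate_add_apply, show m + m * j = m * (j + 1) by ring]
  · rintro ⟨i, j, h⟩
    refine ⟨i + 1, j, ?_⟩
    rw [← h, ← Function.iterate_add_apply, Nat.mul_succ]

/-- The number of the `j < m` for which `T ^ j x` is in the grand orbit of `x`. -/
noncomputable def cnt (m : ℕ) (x : ℤ) : ℕ := phi m (G m x) x

lemma G_mer {m j : ℕ} {x y : ℤ} (h : T^[j] y ∈ G m x) : Mer y x := by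
  obtain ⟨i, k, h⟩ := h
  exact ⟨m * i + j, m * k, by rw [Function.iterate_add_apply]; exact h⟩

lemma phi_G_of_mer {m : ℕ} {x y : ℤ} (h : Mer y x) : phi m (G m x) y = cnt m x :=
  phi_mer (G_inv m x) h

lemma phi_G_of_not {m : ℕ} {x y : ℤ} (h : ¬ Mer y x) : phi m (G m x) y = 0 := by
  classical
  unfold phi
  rw [Finset.card_eq_zero, Finset.filter_eq_empty_iff]
  exact fun j _ hj => h (G_mer hj)

/-- **The density of a grand orbit of `T ^ m`.** -/
theorem G_dens {s : ℤ} (hs : s = 1 ∨ s = -1) {m : ℕ} (hm : 0 < m) {x : ℤ} {β : ℝ}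
    (hβ : Dens s {y | Mer y x} β) (j : ℕ) :
    Dens s {y | T^[j] y ∈ G m x} (cnt m x * β / m) := by
  have h1 : Tendsto (fun N : ℕ => (∑ j ∈ Finset.range m, num s (fun y => T^[j] y ∈ G m x) N) / N) atTop
      (𝓝 (cnt m x * β)) := by
    refine (((dens_iff hs).1 hβ).const_mul (cnt m x : ℝ)).congr fun N => ?_
    rw [sum_num, ← mul_div_assoc]
    congr 1
    unfold num
    rw [Finset.mul_sum]
    refine Finset.sum_congr rfl fun n _ => ?_
    by_cases h : Mer (s * (n : ℤ)) x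
    · have h2 : ind s (fun y => y ∈ {y | Mer y x}) n = 1 := if_pos h
      rw [h2, mul_one, phi_G_of_mer h]
    · have h2 : ind s (fun y => y ∈ {y | Mer y x}) n = 0 := if_neg h
      rw [h2, mul_zero, phi_G_of_not h, Nat.cast_zero]
  exact (dens_iff hs).2 (((G_inv m x).phase (s := s) hm).density hs hm h1 j)

lemma cnt_pos {m : ℕ} (hm : 0 < m) (x : ℤ) : 0 < cnt m x := phi_pos hm (G_self m x)

lemma cnt_one (x : ℤ) : cnt 1 x = 1 :=
  le_antisymm (phi_le 1 _ x) (cnt_pos one_pos x)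

lemma cnt_wild {m : ℕ} (hm : 0 < m) {x : ℤ} (hx : Wild x) : cnt m x = 1 := by
  classical
  unfold cnt phi
  have h1 : ((Finset.range m).filter fun j => T^[j] x ∈ G m x) = {0} := by
    ext j
    rw [Finset.mem_filter, Finset.mem_range, Finset.mem_singleton]
    constructor
    · rintro ⟨hj, i, k, h⟩
      rw [← Function.iterate_add_apply] at h
      have h1 : m * i + j = m * k := hx _ _ h
      have h2 : m ∣ j := (Nat.dvd_add_right (Dvd.intro i rfl)).1 (Dvd.intro k h1.symm)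
      exact Nat.eq_zero_of_dvd_of_lt h2 hj
    · rintro rfl
      exact ⟨hm, 0, 0, rfl⟩
  have h2 : ((Finset.range m).filter fun j => T^[j] x ∈ G m x).card = 1 := by
    rw [h1]
    rfl
  convert h2

/-- Equality in a cycle of exact period `p`. -/
lemma cycle_iff {c : ℤ} {p : ℕ} (hp : 0 < p) (hc : T^[p] c = c)
    (hmin : ∀ q : ℕ, 0 < q → T^[q] c = c → p ≤ q) (a b : ℕ) :
    T^[a] c = T^[b] c ↔ a % p = b % p := by
  have h1 : Function.minimalPeriod T c = p := by
    refine le_antisymm (Function.IsPeriodicPt.minimalPeriod_le hp hc) (hmin _ ?_ ?_)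
    · exact Function.IsPeriodicPt.minimalPeriod_pos hp hc
    · exact Function.isPeriodicPt_minimalPeriod T c
  have h2 : ∀ n : ℕ, T^[n % p] c = T^[n] c := by
    intro n
    rw [← h1]
    exact Function.iterate_mod_minimalPeriod_eq
  constructor
  · intro h
    rw [← h2 a, ← h2 b] at h
    have h3 : ∀ n : ℕ, n % p ∈ Set.Iio (Function.minimalPeriod T c) := by
      intro n
      rw [h1]
      exact Nat.mod_lt n hp
    exact Function.iterate_injOn_Iio_minimalPeriod (h3 a) (h3 b) h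
  · intro h
    rw [← h2 a, ← h2 b, h]

lemma exists_mul_mod {m p j : ℕ} (hp : 0 < p) (h : Nat.gcd m p ∣ j) : ∃ u : ℕ, (m * u) % p = j % p := by
  obtain ⟨t, rfl⟩ := h
  have h1 : ((Nat.gcd m p : ℕ) : ℤ) = m * Nat.gcdA m p + p * Nat.gcdB m p := Nat.gcd_eq_gcd_ab m p
  have hp' : (0 : ℤ) < p := by exact_mod_cast hp
  obtain ⟨u, hu⟩ := Int.eq_ofNat_of_zero_le (Int.emod_nonneg (Nat.gcdA m p * t) hp'.ne')
  refine ⟨u, ?_⟩
  have h2 : ((m * u : ℕ) : ℤ) ≡ ((Nat.gcd m p * t : ℕ) : ℤ) [ZMOD p] := by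
    push_cast
    rw [h1, ← hu]
    have h3 : (Nat.gcdA m p * (t : ℤ)) % (p : ℤ) ≡ Nat.gcdA m p * t [ZMOD p] := Int.mod_modEq _ _
    have h4 := h3.mul_left (m : ℤ)
    refine h4.trans ?_
    have h5 : ((m : ℤ) * Nat.gcdA m p + p * Nat.gcdB m p) * t =
        m * (Nat.gcdA m p * t) + p * (Nat.gcdB m p * t) := by ring
    rw [h5]
    exact (Int.modEq_iff_dvd.2 ⟨Nat.gcdB m p * t, by ring⟩)
  exact Int.natCast_modEq_iff.1 h2

lemma card_multiples {g r : ℕ} (hg : 0 < g) :
    ((Finset.range (g * r)).filter fun j => g ∣ j).card = r := by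
  have h1 : ((Finset.range (g * r)).filter fun j => g ∣ j) = (Finset.range r).image fun i => g * i := by
    ext j
    rw [Finset.mem_filter, Finset.mem_range, Finset.mem_image]
    constructor
    · rintro ⟨h, i, rfl⟩
      exact ⟨i, Finset.mem_range.2 (lt_of_mul_lt_mul_left h (Nat.zero_le g)), rfl⟩
    · rintro ⟨i, hi, rfl⟩
      exact ⟨Nat.mul_lt_mul_of_pos_left (Finset.mem_range.1 hi) hg, Dvd.intro i rfl⟩
  rw [h1, Finset.card_image_of_injective, Finset.card_range]
  exact fun a b h => Nat.eq_of_mul_eq_mul_left hg h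

lemma mem_G_tame {m : ℕ} (hm : 0 < m) {x c : ℤ} {p : ℕ} (hp : 0 < p) (hc : T^[p] c = c)
    (hmin : ∀ q : ℕ, 0 < q → T^[q] c = c → p ≤ q) (hx : Mer x c) (j : ℕ) :
    T^[j] x ∈ G m x ↔ Nat.gcd m p ∣ j := by
  obtain ⟨k, l, hkl⟩ := hx
  have h0 : ∀ n : ℕ, T^[n + k] x = T^[n + l] c := by
    intro n
    rw [Function.iterate_add_apply, hkl, ← Function.iterate_add_apply]
  constructor
  · rintro ⟨i, i', h⟩
    rw [← Function.iterate_add_apply] at h
    have h1 : T^[(m * i + j) + k] x = T^[m * i' + k] x := by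
      rw [Nat.add_comm _ k, Nat.add_comm _ k, Function.iterate_add_apply, h,
        ← Function.iterate_add_apply]
    rw [h0, h0, cycle_iff hp hc hmin] at h1
    have h2 : (m * i + j) + l ≡ m * i' + l [MOD p] := h1
    have h3 : m * i + j ≡ m * i' [MOD p] := Nat.ModEq.add_right_cancel' l h2
    have h4 : m * i + j ≡ m * i' [MOD (Nat.gcd m p)] := h3.of_dvd (Nat.gcd_dvd_right m p)
    have h5 : Nat.gcd m p ∣ m * i' := (Nat.gcd_dvd_left m p).mul_right i'
    have h6 : Nat.gcd m p ∣ m * i + j := (h4.dvd_iff dvd_rfl).2 h5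
    exact (Nat.dvd_add_right ((Nat.gcd_dvd_left m p).mul_right i)).1 h6
  · intro h
    obtain ⟨u, hu⟩ := exists_mul_mod hp h
    refine ⟨k, k + u, ?_⟩
    rw [← Function.iterate_add_apply]
    obtain ⟨K, hK⟩ : ∃ K, m * k = K + k := ⟨m * k - k, by
      have : k ≤ m * k := Nat.le_mul_of_pos_left k hm
      omega⟩
    have h1 : m * k + j = (K + j) + k := by omega
    have h2 : m * (k + u) = (K + m * u) + k := by rw [Nat.mul_add, hK]; omega
    rw [h1, h2, h0, h0, cycle_iff hp hc hmin]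
    have h3 : j ≡ m * u [MOD p] := hu.symm
    exact (h3.add_left K).add_right l

lemma cnt_tame {m : ℕ} (hm : 0 < m) {x c : ℤ} {p : ℕ} (hp : 0 < p) (hc : T^[p] c = c)
    (hmin : ∀ q : ℕ, 0 < q → T^[q] c = c → p ≤ q) (hx : Mer x c) :
    Nat.gcd m p * cnt m x = m := by
  classical
  obtain ⟨r, hr⟩ := Nat.gcd_dvd_left m p
  have hg : 0 < Nat.gcd m p := Nat.gcd_pos_of_pos_left p hm
  have h1 : ((Finset.range m).filter fun j => T^[j] x ∈ G m x) =
      (Finset.range (Nat.gcd m p * r)).filter fun j => Nat.gcd m p ∣ j := by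
    rw [← hr]
    exact Finset.filter_congr fun j _ => mem_G_tame hm hp hc hmin hx j
  have h2 : ((Finset.range m).filter fun j => T^[j] x ∈ G m x).card = r := by
    rw [h1, card_multiples hg]
  have h3 : cnt m x = r := by
    unfold cnt phi
    convert h2
  rw [h3, ← hr]

end Pool.Agent.Helper53.GO
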