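import Mathlib

/-!
# Powers of two with a given exponent modulo `m` close to powers of three
-/

set_option autoImplicit false

open Real

namespace Pool.Agent.Helper53.GO

lemma irr {m : ℕ} (hm : 0 < m) : Irrational (log 3 / (m * log 2)) := by
  rintro ⟨q, hq⟩
  have h2 : 0 < log 2 := log_pos (by norm_num)
  have h3 : 0 < log 3 := log_pos (by norm_num)
  have hm' : (0 : ℝ) < m := by exact_mod_cast hm
  have hqpos : (0 : ℝ) < q := by
    rw [hq]
    positivity
  have hq0 : 0 < q := by exact_mod_cast hqpos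
  have hnum : 0 < q.num := Rat.num_pos.2 hq0
  have h4 : (q.den : ℝ) * log 3 = (q.num : ℝ) * m * log 2 := by
    have h5 : (q : ℝ) = q.num / q.den := by exact_mod_cast (Rat.num_div_den q).symm
    rw [h5] at hq
    have hd : (0 : ℝ) < q.den := by exact_mod_cast q.den_pos
    field_simp at hq
    linarith
  obtain ⟨k, hk⟩ : ∃ k : ℕ, q.num = k := ⟨q.num.toNat, by omega⟩
  have h6 : log ((3 : ℝ) ^ q.den) = log ((2 : ℝ) ^ (k * m)) := by
    rw [log_pow, log_pow, h4, hk]
    push_cast
    ring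
  have h7 : (3 : ℝ) ^ q.den = (2 : ℝ) ^ (k * m) :=
    log_injOn_pos (by simp) (by simp) h6
  have h8 : 3 ^ q.den = 2 ^ (k * m) := by exact_mod_cast h7
  have h9 : Odd (3 ^ q.den) := Odd.pow (by decide)
  have hkm : k * m ≠ 0 := by
    have : 0 < k := by omega
    positivity
  have h10 : Even (2 ^ (k * m)) := by
    rw [Nat.even_pow]
    exact ⟨by decide, hkm⟩
  rw [h8] at h9
  exact (Nat.not_even_iff_odd.2 h9) h10

/-- There are powers `2 ^ a` with `a` congruent to one modulo `m` as close to powers of `3` as we like. -/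
theorem exists_close {m : ℕ} (hm : 0 < m) {ε : ℝ} (hε : 0 < ε) :
    ∃ a b l : ℕ, a = 1 + m * l ∧ |(3 : ℝ) ^ b / 2 ^ a - 1| ≤ ε := by
  have h2 : 0 < log 2 := log_pos (by norm_num)
  have h3 : 0 < log 3 := log_pos (by norm_num)
  have hm' : (0 : ℝ) < m := by exact_mod_cast hm
  set A := log 3 with hA
  set B := m * log 2 with hB
  have hBpos : 0 < B := by positivity
  set ξ := A / B with hξ
  have hξpos : 0 < ξ := by positivity
  -- continuity of exp
  obtain ⟨δ, hδ, hδε⟩ : ∃ δ > 0, ∀ x : ℝ, |x| < δ → |exp x - 1| ≤ ε := by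
    have h := continuous_exp.continuousAt (x := (0 : ℝ))
    rw [Metric.continuousAt_iff] at h
    obtain ⟨δ, hδ, h⟩ := h ε hε
    refine ⟨δ, hδ, fun x hx => ?_⟩
    have := h (x := x) (by simpa [Real.dist_eq] using hx)
    rw [Real.dist_eq, exp_zero] at this
    exact this.le
  -- density
  have hd : Dense (AddSubgroup.closure {A, B} : Set ℝ) := dense_addSubgroupClosure_pair_iff.2 (irr hm)
  obtain ⟨x, hx1, hx2⟩ := hd.exists_dist_lt (log 2) (half_pos hδ)
  rw [SetLike.mem_coe, AddSubgroup.mem_closure_pair] at hx1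
  obtain ⟨u, v, huv⟩ := hx1
  rw [zsmul_eq_mul, zsmul_eq_mul] at huv
  rw [Real.dist_eq] at hx2
  -- Dirichlet
  set K : ℕ := u.natAbs + v.natAbs + 1 with hK
  have hKpos : (0 : ℝ) < K := by positivity
  obtain ⟨n, hn⟩ := exists_nat_gt (max (K * B / (δ / 2)) (1 / ξ))
  have hn1 : K * B / (δ / 2) < n := lt_of_le_of_lt (le_max_left _ _) hn
  have hn2 : 1 / ξ < n := lt_of_le_of_lt (le_max_right _ _) hn
  have hnpos : 0 < n := by
    have : (0 : ℝ) < n := lt_trans (by positivity) hn2
    exact_mod_cast this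
  obtain ⟨j, k, hk, -, hjk⟩ := Real.exists_int_int_abs_mul_sub_le ξ hnpos
  have hk1 : (1 : ℝ) ≤ k := by exact_mod_cast hk
  have hn3 : 1 / ((n : ℝ) + 1) < ξ := by
    rw [div_lt_iff₀ hξpos] at hn2
    rw [div_lt_iff₀ (by positivity)]
    nlinarith
  have hj : 1 ≤ j := by
    have h5 := (abs_le.1 hjk).2
    have h6 : ξ ≤ k * ξ := by nlinarith
    have h7 : (0 : ℝ) < j := by linarith
    have h8 : 0 < j := by exact_mod_cast h7
    omega
  have hsmall : |(K : ℝ) * (B * (k * ξ - j))| < δ / 2 := by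
    rw [abs_mul, abs_mul, abs_of_pos hKpos, abs_of_pos hBpos]
    have h5 : (K : ℝ) * B < (δ / 2) * n := by
      rw [div_lt_iff₀ (by positivity)] at hn1
      linarith
    calc (K : ℝ) * (B * |(k : ℝ) * ξ - j|) ≤ K * (B * (1 / (n + 1))) := by gcongr
      _ = K * B / (n + 1) := by ring
      _ < δ / 2 := by
        rw [div_lt_iff₀ (by positivity)]
        nlinarith
  have hU : 0 ≤ u + K * k := by
    have h5 : (K : ℤ) ≤ K * k := by nlinarith
    have h7 := neg_abs_le u
    have h8 : (K : ℤ) = |u| + |v| + 1 := by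
      rw [hK]
      push_cast
      rfl
    have h9 := abs_nonneg v
    linarith
  have hV : 0 ≤ K * j - v := by
    have h5 : (K : ℤ) ≤ K * j := by nlinarith
    have h7 := le_abs_self v
    have h8 : (K : ℤ) = |u| + |v| + 1 := by
      rw [hK]
      push_cast
      rfl
    have h9 := abs_nonneg u
    linarith
  obtain ⟨b, hb⟩ := Int.eq_ofNat_of_zero_le hU
  obtain ⟨l, hl⟩ := Int.eq_ofNat_of_zero_le hV
  have hbR : (b : ℝ) = u + K * k := by exact_mod_cast hb.symm
  have hlR : (l : ℝ) = K * j - v := by exact_mod_cast hl.symm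
  refine ⟨1 + m * l, b, l, rfl, ?_⟩
  have hexp : (3 : ℝ) ^ b / 2 ^ (1 + m * l) = exp (b * A - l * B - log 2) := by
    rw [exp_sub, exp_sub, hA, hB, exp_log (by norm_num : (0 : ℝ) < 2)]
    have h5 : exp (b * log 3) = 3 ^ b := by
      rw [mul_comm, exp_mul, exp_log (by norm_num : (0 : ℝ) < 3), rpow_natCast]
    have h6 : exp (l * (m * log 2)) = 2 ^ (m * l) := by
      rw [show (l : ℝ) * (m * log 2) = log 2 * ((m * l : ℕ) : ℝ) by push_cast; ring, exp_mul,
        exp_log (by norm_num : (0 : ℝ) < 2), rpow_natCast]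
    rw [h5, h6, pow_add, pow_one]
    field_simp
  rw [hexp]
  apply hδε
  have h5 : (b : ℝ) * A - l * B - log 2 = (x - log 2) + K * (B * (k * ξ - j)) := by
    rw [hbR, hlR, ← huv, hξ]
    field_simp
    ring
  rw [h5]
  have h6 : |x - log 2| < δ / 2 := by rw [abs_sub_comm]; exact hx2
  calc |(x - log 2) + K * (B * (k * ξ - j))| ≤ |x - log 2| + |(K : ℝ) * (B * (k * ξ - j))| :=
        abs_add_le _ _
    _ < δ := by linarith

end Pool.Agent.Helper53.GO
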