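import Pool.Agent.Helper53.GO.Orbit
import Pool.Graph.R_seed8.H499R2.NDClass2

/-!
# Densities of the sets which are completely invariant under an iterate of `T`
-/

set_option autoImplicit false

open Filter Topology Asymptotics
open Pool.Agent.H723R2.LSW (T T_even T_odd Wild Mer T_Ci T_sign T_iter_sign mer_Ci mer_iff)
open Pool.Agent.H499R2.ND (Ci structure_full IsRep)

namespace Pool.Agent.Helper53.GO

lemma phi_le (m : ℕ) (S : Set ℤ) (x : ℤ) : phi m S x ≤ m := by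
  classical
  unfold phi
  exact (Finset.card_filter_le _ _).trans (by simp)

lemma phi_pos {m : ℕ} (hm : 0 < m) {S : Set ℤ} {x : ℤ} (hx : x ∈ S) : 0 < phi m S x := by
  classical
  unfold phi
  refine Finset.card_pos.2 ⟨0, Finset.mem_filter.2 ⟨Finset.mem_range.2 hm, hx⟩⟩

lemma num_phi (s : ℤ) (m : ℕ) (S : Set ℤ) (N : ℕ) :
    ∑ n ∈ Finset.range N, (phi m S (s * (n : ℤ)) : ℝ) =
      ∑ i ∈ Finset.range (m + 1), (i : ℝ) * num s (fun x => x ∈ {y : ℤ | phi m S y = i}) N := by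
  unfold num
  simp_rw [Finset.mul_sum]
  rw [Finset.sum_comm]
  refine Finset.sum_congr rfl fun n _ => ?_
  rw [Finset.sum_eq_single (phi m S (s * (n : ℤ)))]
  · have h1 : ind s (fun x => x ∈ {y : ℤ | phi m S y = phi m S (s * (n : ℤ))}) n = 1 := if_pos rfl
    rw [h1, mul_one]
  · intro i _ hi
    have h1 : ind s (fun x => x ∈ {y : ℤ | phi m S y = i}) n = 0 := if_neg fun h => hi (Eq.symm h)
    rw [h1, mul_zero]
  · intro h
    exact absurd (Finset.mem_range.2 (Nat.lt_succ_of_le (phi_le m S _))) h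

lemma Dens.unique {s : ℤ} {S : Set ℤ} {d d' : ℝ} (h : Dens s S d) (h' : Dens s S d') : d = d' :=
  tendsto_nhds_unique h h'

lemma side_finite {s : ℤ} (hs : s = 1 ∨ s = -1) (S : Set ℤ) (N : ℕ) :
    {n : ℤ | 0 < s * n ∧ s * n ≤ N ∧ n ∈ S}.Finite := by
  refine (Set.finite_Icc (-(N : ℤ)) N).subset fun n hn => ?_
  obtain ⟨h1, h2, -⟩ := hn
  rcases hs with rfl | rfl
  · exact ⟨by omega, by omega⟩
  · exact ⟨by omega, by omega⟩

lemma Dens.mono {s : ℤ} (hs : s = 1 ∨ s = -1) {S S' : Set ℤ} {d d' : ℝ} (h : Dens s S d)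
    (h' : Dens s S' d') (hsub : ∀ x ∈ S, 0 < s * x → x ∈ S') : d ≤ d' := by
  refine le_of_tendsto_of_tendsto' h h' fun N => ?_
  refine div_le_div_of_nonneg_right ?_ (Nat.cast_nonneg N)
  have := Set.ncard_le_ncard (s := {n : ℤ | 0 < s * n ∧ s * n ≤ N ∧ n ∈ S})
    (t := {n : ℤ | 0 < s * n ∧ s * n ≤ N ∧ n ∈ S'})
    (fun n hn => ⟨hn.1, hn.2.1, hsub n hn.2.2 hn.1⟩) (side_finite hs _ _)
  exact_mod_cast this

lemma Dens.congr {s : ℤ} {S S' : Set ℤ} {d : ℝ} (h : Dens s S d)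
    (hS : ∀ x, 0 < s * x → (x ∈ S ↔ x ∈ S')) : Dens s S' d := by
  unfold Dens at h ⊢
  refine h.congr fun N => ?_
  have : {n : ℤ | 0 < s * n ∧ s * n ≤ N ∧ n ∈ S} = {n : ℤ | 0 < s * n ∧ s * n ≤ N ∧ n ∈ S'} := by
    ext n
    exact ⟨fun hn => ⟨hn.1, hn.2.1, (hS n hn.1).1 hn.2.2⟩,
      fun hn => ⟨hn.1, hn.2.1, (hS n hn.1).2 hn.2.2⟩⟩
  rw [this]

lemma Dens.empty (s : ℤ) {S : Set ℤ} (h : ∀ x ∈ S, ¬ 0 < s * x) : Dens s S 0 := by
  unfold Dens
  have : ∀ N : ℕ, {n : ℤ | 0 < s * n ∧ s * n ≤ N ∧ n ∈ S} = ∅ := by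
    intro N
    rw [Set.eq_empty_iff_forall_notMem]
    exact fun n hn => h n hn.2.2 hn.1
  simp only [this, Set.ncard_empty]
  simp

/-- **Densities of the sets which are completely invariant under an iterate.** -/
theorem Inv.density {s : ℤ} (hs : s = 1 ∨ s = -1) {m : ℕ} (hm : 0 < m) {S : Set ℤ} (h : Inv m S) :
    ∃ δ : ℝ, (∀ j : ℕ, Dens s {x | T^[j] x ∈ S} δ) ∧ (δ = 0 ↔ ∀ x ∈ S, ¬ 0 < s * x) := by
  obtain ⟨κ, h1, h2, -⟩ := structure_full hs
  have hinv : ∀ i : ℕ, ∀ x : ℤ, x ∈ {y : ℤ | phi m S y = i} ↔ Ci x ∈ {y : ℤ | phi m S y = i} := by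
    intro i x
    show phi m S x = i ↔ phi m S (Ci x) = i
    rw [phi_mer h (mer_Ci x)]
  choose! d hd using fun i : ℕ => (⟨_, h2 _ (hinv i)⟩ : ∃ d : ℝ, Dens s {y : ℤ | phi m S y = i} d)
  have hm' : (0 : ℝ) < m := by exact_mod_cast hm
  set μ : ℝ := ∑ i ∈ Finset.range (m + 1), (i : ℝ) * d i with hμ
  have h3 : Tendsto (fun N : ℕ => (∑ j ∈ Finset.range m, num s (fun x => T^[j] x ∈ S) N) / N) atTop
      (𝓝 μ) := by
    have h4 : Tendsto (fun N : ℕ => ∑ i ∈ Finset.range (m + 1),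
        (i : ℝ) * (num s (fun x => x ∈ {y : ℤ | phi m S y = i}) N / N)) atTop (𝓝 μ) :=
      tendsto_finsetSum _ fun i _ => ((dens_iff hs).1 (hd i)).const_mul _
    refine h4.congr fun N => ?_
    rw [sum_num, num_phi, Finset.sum_div]
    exact Finset.sum_congr rfl fun i _ => (mul_div_assoc _ _ _).symm
  have h5 : ∀ j : ℕ, Dens s {x | T^[j] x ∈ S} (μ / m) := fun j =>
    (dens_iff hs).2 ((h.phase (s := s) hm).density hs hm h3 j)
  refine ⟨μ / m, h5, fun h6 x hx hsx => ?_, fun h6 => ?_⟩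
  · have h7 : μ = 0 := by
      rcases div_eq_zero_iff.1 h6 with h7 | h7
      · exact h7
      · linarith
    have hdn : ∀ i, 0 ≤ d i := fun i => ge_of_tendsto' (hd i) fun N => by positivity
    obtain ⟨h8, h9⟩ := h1 x hsx
    have h10 : κ x ≤ d (phi m S x) := by
      refine Dens.mono (S := {n | ∃ i j : ℕ, Ci^[i] n = Ci^[j] x}) hs h9 (hd _) fun y hy _ => ?_
      exact phi_mer h ((mer_iff y x).2 hy)
    have h11 : (1 : ℝ) ≤ (phi m S x : ℝ) := by exact_mod_cast phi_pos hm hx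
    have h12 : (phi m S x : ℝ) * d (phi m S x) ≤ μ := by
      refine Finset.single_le_sum (f := fun i : ℕ => (i : ℝ) * d i) (fun i _ => ?_)
        (Finset.mem_range.2 (Nat.lt_succ_of_le (phi_le m S x)))
      exact mul_nonneg (Nat.cast_nonneg i) (hdn i)
    nlinarith
  · exact (h5 0).unique (Dens.empty s (S := {x | T^[0] x ∈ S}) h6)

end Pool.Agent.Helper53.GO
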