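import Pool.Graph.R_seed8.H723R2.LSWDens
import Pool.Graph.R_seed8.W38.AFe

/-!
# Almost all integers have merged with their neighbours and with their multiples by three
-/

set_option autoImplicit false

open Filter Topology Asymptotics
open Pool.Agent.H723R2.LSW (T T_even T_odd)
open Pool.Agent.W38.AF (kap Nbr fwdN)

namespace Pool.Agent.Helper53.GO

/-- `s n` has merged with `s (n + 1)` and with `s (3 n + r)`, `r = 0, 1, 2`, after `t ≤ log₄ n` steps. -/
def Near (s : ℤ) (n : ℕ) : Prop := ∃ t : ℕ, 4 ^ t ≤ n ∧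
  T^[t] (s * ((n + 1 : ℕ) : ℤ)) = T^[t] (s * (n : ℤ)) ∧
  ∀ r : ℕ, r < 3 → T^[t] (s * ((3 * n + r : ℕ) : ℤ)) = T^[t] (s * (n : ℤ))

lemma one_le_kap : ∀ᶠ n : ℕ in atTop, 1 ≤ kap n := by
  have h1 : Tendsto (fun n : ℕ => Real.log n) atTop atTop :=
    Real.tendsto_log_atTop.comp tendsto_natCast_atTop_atTop
  have h2 : Tendsto (fun n : ℕ => Real.log (Real.log n)) atTop atTop :=
    Real.tendsto_log_atTop.comp h1
  have h3 := (isLittleO_log_rpow_rpow_atTop 16 (show (0 : ℝ) < 1 / 2 by norm_num)).bound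
    (show (0 : ℝ) < 1 by norm_num)
  have h4 := h1.eventually h3
  filter_upwards [h4, h1.eventually_gt_atTop 0, h2.eventually_gt_atTop 0] with n hn h5 h6
  have h7 : Real.log (Real.log n) ^ (16 : ℕ) ≤ √ (Real.log n) := by
    rw [Real.sqrt_eq_rpow]
    have h8 : ‖Real.log (Real.log n) ^ (16 : ℝ)‖ = Real.log (Real.log n) ^ (16 : ℕ) := by
      rw [Real.norm_of_nonneg (by positivity)]
      exact_mod_cast Real.rpow_natCast _ 16
    have h9 : ‖Real.log n ^ (1 / 2 : ℝ)‖ = Real.log n ^ (1 / 2 : ℝ) :=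
      Real.norm_of_nonneg (by positivity)
    rw [h8, h9, one_mul] at hn
    exact hn
  unfold kap
  rw [le_div_iff₀ (by positivity), one_mul]
  exact h7

lemma near_of_nbr {s : ℤ} (hs : s = 1 ∨ s = -1) {n : ℕ} (hk : 1 ≤ kap n) (h : Nbr s n) :
    Near s n := by
  obtain ⟨t, ht, h⟩ := h
  have h0 : ((0 : ℕ) : ℝ) ≤ kap n := by push_cast; linarith
  have h1 : ((1 : ℕ) : ℝ) ≤ kap n := by push_cast; linarith
  have he : (2 : ℝ) ≤ Real.exp (kap n) := by
    have := Real.add_one_le_exp (kap n)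
    linarith
  refine ⟨t, ht, ?_, fun r hr => ?_⟩
  · have h2 := h 0 0 0 0 h0 h0 h0 h0 (s * ((n + 1 : ℕ) : ℤ)) ?_
    · exact h2
    · have h3 : (2 ^ 0 * 3 ^ 0 * (s * ((n + 1 : ℕ) : ℤ)) - 2 ^ 0 * 3 ^ 0 * (s * (n : ℤ)) : ℤ) = s := by
        push_cast
        ring
      rw [h3]
      rcases hs with rfl | rfl <;> norm_num <;> linarith
  · have h2 := h 0 0 0 1 h0 h0 h0 h1 (s * ((3 * n + r : ℕ) : ℤ)) ?_
    · exact h2
    · have h3 : (2 ^ 0 * 3 ^ 0 * (s * ((3 * n + r : ℕ) : ℤ)) - 2 ^ 0 * 3 ^ 1 * (s * (n : ℤ)) : ℤ) =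
          s * r := by
        push_cast
        ring
      rw [h3]
      have h4 : (r : ℝ) ≤ 2 := by exact_mod_cast (by omega : r ≤ 2)
      have h5 : |((s * r : ℤ) : ℝ)| = r := by
        push_cast
        rcases hs with rfl | rfl <;> simp
      rw [h5]
      linarith

open Classical in
/-- The number of the `n < N` that have not merged is `o(N)`. -/
theorem near_density {s : ℤ} (hs : s = 1 ∨ s = -1) :
    (fun N : ℕ => (((Finset.range N).filter fun n => ¬ Near s n).card : ℝ)) =o[atTop]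
      fun N : ℕ => (N : ℝ) := by
  have h := fwdN hs
  rw [Pool.Agent.H499R2.CO.HD_iff] at h
  obtain ⟨n0, hn0⟩ := eventually_atTop.1 one_le_kap
  have h1 : ∀ N : ℕ, (((Finset.range N).filter fun n => ¬ Near s n).card : ℝ) ≤
      (N - ((Finset.Icc 1 N).filter fun n => Nbr s n).card) + (n0 + 1) := by
    intro N
    have h2 : ((Finset.range N).filter fun n => ¬ Near s n) ⊆
        ((Finset.Icc 1 N).filter fun n => ¬ Nbr s n) ∪ Finset.range (n0 + 1) := by
      intro n hn
      rw [Finset.mem_filter, Finset.mem_range] at hn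
      rw [Finset.mem_union, Finset.mem_filter, Finset.mem_Icc, Finset.mem_range]
      by_cases h3 : n < n0 + 1
      · exact Or.inr h3
      · left
        refine ⟨⟨by omega, by omega⟩, fun h4 => hn.2 (near_of_nbr hs (hn0 n (by omega)) h4)⟩
    have h3 := (Finset.card_le_card h2).trans (Finset.card_union_le _ _)
    rw [Finset.card_range] at h3
    have h4 := Finset.card_filter_add_card_filter_not (s := Finset.Icc 1 N) (fun n => Nbr s n)
    rw [Nat.card_Icc, Nat.add_sub_cancel] at h4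
    have h5 : (((Finset.range N).filter fun n => ¬ Near s n).card : ℝ) ≤
        ((Finset.Icc 1 N).filter fun n => ¬ Nbr s n).card + (n0 + 1) := by exact_mod_cast h3
    have h6 : (((Finset.Icc 1 N).filter fun n => Nbr s n).card : ℝ) +
        ((Finset.Icc 1 N).filter fun n => ¬ Nbr s n).card = N := by exact_mod_cast h4
    linarith
  rw [isLittleO_iff_tendsto' (by
    filter_upwards [eventually_gt_atTop 0] with N hN h0
    exact absurd h0 (by positivity))]
  have h2 : Tendsto (fun N : ℕ => (1 - (((Finset.Icc 1 N).filter fun n => Nbr s n).card : ℝ) / N) +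
      (n0 + 1) / N) atTop (𝓝 0) := by
    have h3 : Tendsto (fun N : ℕ => ((n0 : ℝ) + 1) / N) atTop (𝓝 0) :=
      tendsto_const_nhds.div_atTop tendsto_natCast_atTop_atTop
    have h4 := ((tendsto_const_nhds (x := (1 : ℝ))).sub h).add h3
    simpa using h4
  refine squeeze_zero' (Eventually.of_forall fun N => by positivity) ?_ h2
  filter_upwards [eventually_gt_atTop 0] with N hN
  have hN' : (0 : ℝ) < N := by exact_mod_cast hN
  rw [div_le_iff₀ hN']
  have h3 := h1 N
  have h4 : ((1 - (((Finset.Icc 1 N).filter fun n => Nbr s n).card : ℝ) / N) + (n0 + 1) / N) * N =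
      (N - ((Finset.Icc 1 N).filter fun n => Nbr s n).card) + (n0 + 1) := by
    field_simp
  rw [h4]
  exact h3

end Pool.Agent.Helper53.GO
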