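import Pool.Agent.Helper53.GO.Equi

/-!
# Grand orbits of the iterates of `T`
-/

set_option autoImplicit false

open Filter Topology Asymptotics
open Pool.Agent.H723R2.LSW (T T_even T_odd Wild Mer T_Ci T_sign T_iter_sign)

namespace Pool.Agent.Helper53.GO

/-- Complete invariance under the iterate `T ^ m`. -/
def Inv (m : ℕ) (S : Set ℤ) : Prop := ∀ x : ℤ, x ∈ S ↔ T^[m] x ∈ S

lemma Inv.mul {m : ℕ} {S : Set ℤ} (h : Inv m S) (i : ℕ) (x : ℤ) : x ∈ S ↔ T^[m * i] x ∈ S := by
  induction i with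
  | zero => simp
  | succ i ih =>
    rw [ih, h (T^[m * i] x), ← Function.iterate_add_apply, show m + m * i = m * (i + 1) by ring]

/-- Invariance for integers whose orbits have merged. -/
lemma Inv.mer {m : ℕ} (hm : 0 < m) {S : Set ℤ} (h : Inv m S) {x y : ℤ} {t : ℕ}
    (ht : T^[t] y = T^[t] x) (j : ℕ) : T^[j] y ∈ S ↔ T^[j] x ∈ S := by
  have h1 : ∀ z : ℤ, T^[j] z ∈ S ↔ T^[m * t + j - t] (T^[t] z) ∈ S := by
    intro z
    rw [h.mul t (T^[j] z), ← Function.iterate_add_apply, ← Function.iterate_add_apply]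
    have h2 : m * t + j - t + t = m * t + j := by
      have : t ≤ m * t := Nat.le_mul_of_pos_left t hm
      omega
    rw [h2]
  rw [h1, h1, ht]

theorem Inv.phase {s : ℤ} {m : ℕ} (hm : 0 < m) {S : Set ℤ} (h : Inv m S) :
    IsPhase s m fun j x => T^[j] x ∈ S where
  per j x := by
    rw [Nat.add_comm j m, Function.iterate_add_apply]
    exact (h _).symm
  dbl := by
    refine ⟨0, fun n _ j => ?_⟩
    rw [Function.iterate_succ_apply, show s * ((2 * n : ℕ) : ℤ) = 2 * (s * (n : ℤ)) by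
      push_cast; ring, T_even]
  mer := ⟨0, fun n _ t _ n' _ ht j => h.mer hm ht j⟩

open Classical in
/-- The number of the `j < m` with `T ^ j x` in `S`. -/
noncomputable def phi (m : ℕ) (S : Set ℤ) (x : ℤ) : ℕ :=
  ((Finset.range m).filter fun j => T^[j] x ∈ S).card

lemma phi_T {m : ℕ} {S : Set ℤ} (h : Inv m S) (x : ℤ) : phi m S (T x) = phi m S x := by
  classical
  unfold phi
  have h1 : ∀ f : ℕ → Prop, ∀ _ : DecidablePred f, ((Finset.range m).filter fun j => f j).card =
      ∑ j ∈ Finset.range m, if f j then 1 else 0 := fun f _ => by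
    rw [Finset.card_filter]
  rw [h1, h1]
  have h2 : ∑ j ∈ Finset.range m, (if T^[j] (T x) ∈ S then 1 else 0) +
      (if T^[0] x ∈ S then 1 else 0) = ∑ j ∈ Finset.range m, (if T^[j] x ∈ S then 1 else 0) +
      (if T^[m] x ∈ S then 1 else 0) := by
    rw [← Finset.sum_range_succ (fun j => if T^[j] x ∈ S then 1 else 0) m,
      Finset.sum_range_succ' (fun j => if T^[j] x ∈ S then 1 else 0) m]
    rfl
  have h3 : (if T^[0] x ∈ S then 1 else 0) = (if T^[m] x ∈ S then 1 else 0) := by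
    show (if x ∈ S then 1 else 0) = (if T^[m] x ∈ S then 1 else 0)
    by_cases h4 : x ∈ S
    · rw [if_pos h4, if_pos ((h x).1 h4)]
    · rw [if_neg h4, if_neg fun h5 => h4 ((h x).2 h5)]
  rw [h3] at h2
  exact Nat.add_right_cancel h2

lemma phi_iter {m : ℕ} {S : Set ℤ} (h : Inv m S) (x : ℤ) (i : ℕ) :
    phi m S (T^[i] x) = phi m S x := by
  induction i with
  | zero => rfl
  | succ i ih => rw [Function.iterate_succ_apply', phi_T h, ih]

lemma phi_mer {m : ℕ} {S : Set ℤ} (h : Inv m S) {x y : ℤ} (hm : Mer x y) :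
    phi m S x = phi m S y := by
  obtain ⟨i, j, hij⟩ := hm
  rw [← phi_iter h x i, hij, phi_iter h y j]

lemma sum_num (s : ℤ) (m : ℕ) (S : Set ℤ) (N : ℕ) :
    ∑ j ∈ Finset.range m, num s (fun x => T^[j] x ∈ S) N =
      ∑ n ∈ Finset.range N, (phi m S (s * (n : ℤ)) : ℝ) := by
  classical
  unfold num
  rw [Finset.sum_comm]
  refine Finset.sum_congr rfl fun n _ => ?_
  unfold phi ind
  rw [Finset.card_filter]
  push_cast
  rfl

/-- The natural density of the integers of sign `s` in `S` is `d`. -/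
def Dens (s : ℤ) (S : Set ℤ) (d : ℝ) : Prop :=
  Tendsto (fun N : ℕ => ({n : ℤ | 0 < s * n ∧ s * n ≤ N ∧ n ∈ S}.ncard : ℝ) / N) atTop (𝓝 d)

lemma ncard_eq {s : ℤ} (hs : s = 1 ∨ s = -1) (S : Set ℤ) (N : ℕ) :
    ({n : ℤ | 0 < s * n ∧ s * n ≤ N ∧ n ∈ S}.ncard : ℝ) =
      num s (fun x => x ∈ S) N - ind s (fun x => x ∈ S) 0 + ind s (fun x => x ∈ S) N := by
  classical
  have hss : s * s = 1 := by rcases hs with rfl | rfl <;> norm_num
  have h1 : {n : ℤ | 0 < s * n ∧ s * n ≤ N ∧ n ∈ S} =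
      (((Finset.Icc 1 N).filter fun n : ℕ => s * (n : ℤ) ∈ S).image fun n : ℕ => s * (n : ℤ) :
        Finset ℤ) := by
    ext x
    rw [Finset.mem_coe, Finset.mem_image, Set.mem_ofPred_eq]
    constructor
    · rintro ⟨h2, h3, h4⟩
      obtain ⟨k, hk⟩ := Int.eq_ofNat_of_zero_le h2.le
      have hx : s * (k : ℤ) = x := by
        have : s * (s * x) = x := by rw [← mul_assoc, hss, one_mul]
        rw [← this, hk]
      refine ⟨k, Finset.mem_filter.2 ⟨Finset.mem_Icc.2 ⟨?_, ?_⟩, ?_⟩, hx⟩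
      · have : (0 : ℤ) < k := by rw [hk] at h2; exact h2
        omega
      · rw [hk] at h3
        exact_mod_cast h3
      · rw [hx]
        exact h4
    · rintro ⟨k, hk, rfl⟩
      rw [Finset.mem_filter, Finset.mem_Icc] at hk
      rw [← mul_assoc, hss, one_mul]
      refine ⟨?_, ?_, hk.2⟩
      · have := hk.1.1
        omega
      · exact_mod_cast hk.1.2
  rw [h1, Set.ncard_coe_finset, Finset.card_image_of_injective]
  · rw [Finset.card_filter]
    push_cast
    have h2 : num s (fun x => x ∈ S) N + ind s (fun x => x ∈ S) N =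
        ∑ n ∈ Finset.range (N + 1), ind s (fun x => x ∈ S) n := by
      rw [Finset.sum_range_succ]
      rfl
    have h3 : ∑ n ∈ Finset.range (N + 1), ind s (fun x => x ∈ S) n =
        ∑ n ∈ Finset.Icc 1 N, ind s (fun x => x ∈ S) n + ind s (fun x => x ∈ S) 0 := by
      rw [Finset.sum_range_eq_add_Ico _ (by omega), add_comm]
      rfl
    have h4 : ∑ n ∈ Finset.Icc 1 N, ind s (fun x => x ∈ S) n =
        ∑ n ∈ Finset.Icc 1 N, if s * (n : ℤ) ∈ S then (1 : ℝ) else 0 := rfl
    linarith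
  · intro a b hab
    have h2 : s * (a : ℤ) = s * (b : ℤ) := hab
    have h3 : s * (s * (a : ℤ)) = s * (s * (b : ℤ)) := by rw [h2]
    rw [← mul_assoc, ← mul_assoc, hss, one_mul, one_mul] at h3
    exact_mod_cast h3

lemma dens_iff {s : ℤ} (hs : s = 1 ∨ s = -1) {S : Set ℤ} {d : ℝ} :
    Dens s S d ↔ Tendsto (fun N : ℕ => num s (fun x => x ∈ S) N / N) atTop (𝓝 d) := by
  have h1 : Tendsto (fun N : ℕ => (ind s (fun x => x ∈ S) N - ind s (fun x => x ∈ S) 0) / (N : ℝ)) atTop
      (𝓝 0) := by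
    have h2 : (fun N : ℕ => ind s (fun x => x ∈ S) N - ind s (fun x => x ∈ S) 0) =o[atTop]
        fun N : ℕ => (N : ℝ) := by
      refine (IsBigO.of_bound 1 (Eventually.of_forall fun N => ?_)).trans_isLittleO (const_small 1)
      rw [Real.norm_eq_abs, norm_one, mul_one]
      exact abs_ind_sub s _ _ _ _
    exact h2.tendsto_div_nhds_zero
  have h2 : ∀ N : ℕ, ({n : ℤ | 0 < s * n ∧ s * n ≤ N ∧ n ∈ S}.ncard : ℝ) / N =
      num s (fun x => x ∈ S) N / N +
        (ind s (fun x => x ∈ S) N - ind s (fun x => x ∈ S) 0) / (N : ℝ) := by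
    intro N
    rw [ncard_eq hs]
    ring
  unfold Dens
  simp only [h2]
  constructor
  · intro h
    have := h.sub h1
    simpa using this
  · intro h
    have := h.add h1
    simpa using this

end Pool.Agent.Helper53.GO
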