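import Pool.Agent.Helper53.GO.Near
import Pool.Agent.Helper53.GO.Kron

/-!
# Equidistribution of the phases
-/

set_option autoImplicit false

open Filter Topology Asymptotics
open Pool.Agent.H723R2.LSW (T T_even T_odd)

namespace Pool.Agent.Helper53.GO

/-- A family of properties of integers, indexed modulo `m`, which is permuted cyclically by the map `T`, in a
weak sense, and which is the same for integers whose orbits have merged early. -/
structure IsPhase (s : ℤ) (m : ℕ) (P : ℕ → ℤ → Prop) : Prop where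
  per : ∀ j x, P (j + m) x ↔ P j x
  dbl : ∃ n₀ : ℕ, ∀ n : ℕ, n₀ ≤ n → ∀ j, P (j + 1) (s * ((2 * n : ℕ) : ℤ)) ↔ P j (s * (n : ℤ))
  mer : ∃ n₀ : ℕ, ∀ n : ℕ, n₀ ≤ n → ∀ t : ℕ, 4 ^ t ≤ n → ∀ n' : ℕ, n ≤ n' →
    T^[t] (s * (n' : ℤ)) = T^[t] (s * (n : ℤ)) → ∀ j, P j (s * (n' : ℤ)) ↔ P j (s * (n : ℤ))

open Classical in
/-- The indicator function. -/
noncomputable def ind (s : ℤ) (Q : ℤ → Prop) (n : ℕ) : ℝ := if Q (s * (n : ℤ)) then 1 else 0

/-- The number of the `n < N` with the property `Q (s n)`. -/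
noncomputable def num (s : ℤ) (Q : ℤ → Prop) (N : ℕ) : ℝ := ∑ n ∈ Finset.range N, ind s Q n

open Classical in
/-- The number of the `n < N` which are not near. -/
noncomputable def bad (s : ℤ) (N : ℕ) : ℝ := ((Finset.range N).filter fun n => ¬ Near s n).card

lemma ind_nonneg (s : ℤ) (Q : ℤ → Prop) (n : ℕ) : 0 ≤ ind s Q n := by
  unfold ind
  split_ifs <;> norm_num

lemma ind_le (s : ℤ) (Q : ℤ → Prop) (n : ℕ) : ind s Q n ≤ 1 := by
  unfold ind
  split_ifs <;> norm_num

lemma ind_congr {s : ℤ} {Q Q' : ℤ → Prop} {n n' : ℕ} (h : Q (s * (n : ℤ)) ↔ Q' (s * (n' : ℤ))) :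
    ind s Q n = ind s Q' n' := by
  unfold ind
  by_cases h1 : Q (s * (n : ℤ))
  · rw [if_pos h1, if_pos (h.1 h1)]
  · rw [if_neg h1, if_neg fun h2 => h1 (h.2 h2)]

lemma abs_ind_sub (s : ℤ) (Q Q' : ℤ → Prop) (n n' : ℕ) : |ind s Q n - ind s Q' n'| ≤ 1 := by
  have h1 := ind_nonneg s Q n
  have h2 := ind_le s Q n
  have h3 := ind_nonneg s Q' n'
  have h4 := ind_le s Q' n'
  rw [abs_le]
  constructor <;> linarith

lemma num_nonneg (s : ℤ) (Q : ℤ → Prop) (N : ℕ) : 0 ≤ num s Q N :=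
  Finset.sum_nonneg fun _ _ => ind_nonneg s Q _

lemma num_le (s : ℤ) (Q : ℤ → Prop) (N : ℕ) : num s Q N ≤ N := by
  have h : num s Q N ≤ ∑ n ∈ Finset.range N, (1 : ℝ) := Finset.sum_le_sum fun n _ => ind_le s Q n
  simpa using h

lemma num_sub (s : ℤ) (Q : ℤ → Prop) {M N : ℕ} (h : M ≤ N) : |num s Q N - num s Q M| ≤ N - M := by
  have h1 : num s Q N - num s Q M = ∑ n ∈ Finset.Ico M N, ind s Q n := by
    unfold num
    rw [Finset.sum_Ico_eq_sub _ h]
  rw [h1, abs_of_nonneg (Finset.sum_nonneg fun _ _ => ind_nonneg s Q _)]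
  have h2 : ∑ n ∈ Finset.Ico M N, ind s Q n ≤ ∑ n ∈ Finset.Ico M N, (1 : ℝ) :=
    Finset.sum_le_sum fun n _ => ind_le s Q n
  have h3 : ∑ n ∈ Finset.Ico M N, (1 : ℝ) = N - M := by
    simp [Nat.cast_sub h]
  linarith

lemma num_dist (s : ℤ) (Q : ℤ → Prop) (M N : ℕ) : |num s Q N - num s Q M| ≤ |(N : ℝ) - M| := by
  rcases le_total M N with h | h
  · have h1 : (M : ℝ) ≤ N := by exact_mod_cast h
    rw [abs_of_nonneg (by linarith : (0 : ℝ) ≤ (N : ℝ) - M)]
    exact num_sub s Q h
  · have h1 : (N : ℝ) ≤ M := by exact_mod_cast h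
    rw [abs_sub_comm, abs_sub_comm (N : ℝ), abs_of_nonneg (by linarith : (0 : ℝ) ≤ (M : ℝ) - N)]
    exact num_sub s Q h

lemma sum_two (f : ℕ → ℝ) (N : ℕ) :
    ∑ n ∈ Finset.range (2 * N), f n = ∑ k ∈ Finset.range N, (f (2 * k) + f (2 * k + 1)) := by
  induction N with
  | zero => simp
  | succ N ih =>
    rw [show 2 * (N + 1) = 2 * N + 1 + 1 by ring, Finset.sum_range_succ, Finset.sum_range_succ,
      Finset.sum_range_succ, ih]
    ring

lemma sum_three (f : ℕ → ℝ) (N : ℕ) : ∑ n ∈ Finset.range (3 * N), f n =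
    ∑ k ∈ Finset.range N, (f (3 * k + 0) + f (3 * k + 1) + f (3 * k + 2)) := by
  induction N with
  | zero => simp
  | succ N ih =>
    rw [show 3 * (N + 1) = 3 * N + 1 + 1 + 1 by ring, Finset.sum_range_succ, Finset.sum_range_succ,
      Finset.sum_range_succ, Finset.sum_range_succ, ih]
    ring_nf

open Classical in
/-- A sum of bounded terms which vanish for the good indices. -/
lemma sum_bad {f : ℕ → ℝ} {c : ℝ} (hc : 0 ≤ c) (n₀ : ℕ) (G : ℕ → Prop) (N : ℕ)
    (h1 : ∀ k, |f k| ≤ c) (h2 : ∀ k, n₀ ≤ k → G k → f k = 0) :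
    |∑ k ∈ Finset.range N, f k| ≤ c * (n₀ + ((Finset.range N).filter fun k => ¬ G k).card) := by
  have h3 : ∀ k, |f k| ≤ c * ((if k < n₀ then 1 else 0) + (if ¬ G k then 1 else 0)) := by
    intro k
    by_cases h4 : k < n₀
    · rw [if_pos h4]
      have : (0 : ℝ) ≤ (if ¬ G k then 1 else 0) := by split_ifs <;> norm_num
      have := h1 k
      nlinarith
    · by_cases h5 : G k
      · rw [h2 k (by omega) h5, abs_zero]
        have : (0 : ℝ) ≤ (if ¬ G k then 1 else 0) := by split_ifs <;> norm_num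
        have : (0 : ℝ) ≤ (if k < n₀ then 1 else 0) := by split_ifs <;> norm_num
        positivity
      · rw [if_neg h4, if_pos h5, zero_add, mul_one]
        exact h1 k
  calc |∑ k ∈ Finset.range N, f k| ≤ ∑ k ∈ Finset.range N, |f k| := Finset.abs_sum_le_sum_abs _ _
    _ ≤ ∑ k ∈ Finset.range N, c * ((if k < n₀ then 1 else 0) + (if ¬ G k then 1 else 0)) :=
      Finset.sum_le_sum fun k _ => h3 k
    _ = c * (((Finset.range N).filter fun k => k < n₀).card +
        ((Finset.range N).filter fun k => ¬ G k).card) := by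
      rw [← Finset.mul_sum, Finset.sum_add_distrib, Finset.sum_boole, Finset.sum_boole]
    _ ≤ c * (n₀ + ((Finset.range N).filter fun k => ¬ G k).card) := by
      gcongr
      have h5 : ((Finset.range N).filter fun k => k < n₀) ⊆ Finset.range n₀ := by
        intro k hk
        rw [Finset.mem_filter] at hk
        exact Finset.mem_range.2 hk.2
      have := Finset.card_le_card h5
      rw [Finset.card_range] at this
      exact_mod_cast this

variable {s : ℤ} {m : ℕ} {P : ℕ → ℤ → Prop}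

lemma IsPhase.two (hP : IsPhase s m P) : ∃ C : ℝ, ∀ N j,
    |num s (P (j + 1)) (2 * N) - 2 * num s (P j) N| ≤ C + 2 * bad s (2 * N) := by
  classical
  obtain ⟨n₁, h1⟩ := hP.dbl
  obtain ⟨n₂, h2⟩ := hP.mer
  refine ⟨2 * ((n₁ + n₂ : ℕ) : ℝ), fun N j => ?_⟩
  have h3 : num s (P (j + 1)) (2 * N) - 2 * num s (P j) N = ∑ k ∈ Finset.range N,
      ((ind s (P (j + 1)) (2 * k) - ind s (P j) k) +
        (ind s (P (j + 1)) (2 * k + 1) - ind s (P j) k)) := by
    unfold num
    rw [sum_two, Finset.mul_sum, ← Finset.sum_sub_distrib]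
    refine Finset.sum_congr rfl fun k _ => ?_
    ring
  rw [h3]
  refine (sum_bad (c := 2) (by norm_num) (n₁ + n₂) (fun k => Near s (2 * k)) N (fun k => ?_)
    fun k hk hG => ?_).trans ?_
  · refine (abs_add_le _ _).trans ?_
    have h4 := abs_ind_sub s (P (j + 1)) (P j) (2 * k) k
    have h5 := abs_ind_sub s (P (j + 1)) (P j) (2 * k + 1) k
    linarith
  · have h4 : ind s (P (j + 1)) (2 * k) = ind s (P j) k := ind_congr (h1 k (by omega) j)
    obtain ⟨t, ht, h5, -⟩ := hG
    have h6 : ind s (P (j + 1)) (2 * k + 1) = ind s (P (j + 1)) (2 * k) :=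
      ind_congr (h2 (2 * k) (by omega) t ht (2 * k + 1) (by omega) h5 (j + 1))
    rw [h6, h4]
    ring
  · have h4 : (((Finset.range N).filter fun k => ¬ Near s (2 * k)).card : ℝ) ≤ bad s (2 * N) := by
      unfold bad
      have h5 : ((Finset.range N).filter fun k => ¬ Near s (2 * k)).card ≤
          ((Finset.range (2 * N)).filter fun k => ¬ Near s k).card := by
        refine Finset.card_le_card_of_injOn (fun k => 2 * k) (fun k hk => ?_) fun a _ b _ hab => ?_
        · have hk' := Finset.mem_filter.1 (Finset.mem_coe.1 hk)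
          refine Finset.mem_coe.2 (Finset.mem_filter.2 ⟨?_, hk'.2⟩)
          have h6 := Finset.mem_range.1 hk'.1
          exact Finset.mem_range.2 (by change 2 * k < 2 * N; omega)
        · simpa using hab
      exact_mod_cast h5
    linarith

lemma IsPhase.three (hP : IsPhase s m P) : ∃ C : ℝ, ∀ N j,
    |num s (P j) (3 * N) - 3 * num s (P j) N| ≤ C + 3 * bad s N := by
  classical
  obtain ⟨n₂, h2⟩ := hP.mer
  refine ⟨3 * (n₂ : ℝ), fun N j => ?_⟩
  have h3 : num s (P j) (3 * N) - 3 * num s (P j) N = ∑ k ∈ Finset.range N,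
      ((ind s (P j) (3 * k + 0) - ind s (P j) k) + (ind s (P j) (3 * k + 1) - ind s (P j) k) +
        (ind s (P j) (3 * k + 2) - ind s (P j) k)) := by
    unfold num
    rw [sum_three, Finset.mul_sum, ← Finset.sum_sub_distrib]
    refine Finset.sum_congr rfl fun k _ => ?_
    ring
  rw [h3]
  refine (sum_bad (c := 3) (by norm_num) n₂ (fun k => Near s k) N (fun k => ?_)
    fun k hk hG => ?_).trans ?_
  · refine (abs_add_le _ _).trans ?_
    have h6 := abs_add_le (ind s (P j) (3 * k + 0) - ind s (P j) k)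
      (ind s (P j) (3 * k + 1) - ind s (P j) k)
    have h4 := abs_ind_sub s (P j) (P j) (3 * k + 0) k
    have h5 := abs_ind_sub s (P j) (P j) (3 * k + 1) k
    have h7 := abs_ind_sub s (P j) (P j) (3 * k + 2) k
    linarith
  · obtain ⟨t, ht, -, h5⟩ := hG
    have h6 : ∀ r : ℕ, r < 3 → ind s (P j) (3 * k + r) = ind s (P j) k := fun r hr =>
      ind_congr (h2 k hk t ht (3 * k + r) (by omega) (h5 r hr) j)
    rw [h6 0 (by norm_num), h6 1 (by norm_num), h6 2 (by norm_num)]
    ring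
  · unfold bad
    linarith

end Pool.Agent.Helper53.GO
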